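import Pool.Agent.helper17.CH.SpecV
import Pool.Agent.helper85.TG.VA1

set_option autoImplicit false

/-!
# Project CH (MP_5628fe_nt), row DH: double Hoelder
-/

namespace Pool.Agent.CH

open Finset ArithmeticFunction
open Pool.Agent.helper74.TG (ee gb geom_bound h85_norm_ee h85_ee_add h85_ee_neg h85_ee_zero)

/-- pairs of tuples -/
noncomputable def DH_P (s : ℕ) (A : Finset ℤ) : Finset ((Fin s → ℤ) × (Fin s → ℤ)) :=
  (Fintype.piFinset fun _ : Fin s => A) ×ˢ (Fintype.piFinset fun _ : Fin s => A)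

/-- the differences of the power sums -/
def DH_D (s k : ℕ) (w : (Fin s → ℤ) × (Fin s → ℤ)) : ↥(Icc 1 k) → ℤ :=
  fun j => ∑ i, w.1 i ^ (j : ℕ) - ∑ i, w.2 i ^ (j : ℕ)

theorem DH_ee_sum {ι : Type*} (t : Finset ι) (f : ι → ℝ) :
    ee (∑ i ∈ t, f i) = ∏ i ∈ t, ee (f i) := by
  classical
  induction t using Finset.induction_on with
  | empty => rw [sum_empty, prod_empty, h85_ee_zero]
  | insert a t ha ih => rw [sum_insert ha, prod_insert ha, h85_ee_add, ih]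

theorem DH_swap (s k : ℕ) (c : ↥(Icc 1 k) → ℝ) (x : Fin s → ℤ) :
    ∑ i, ∑ j, c j * (x i : ℝ) ^ (j : ℕ) = ∑ j, c j * ((∑ i, x i ^ (j : ℕ) : ℤ) : ℝ) := by
  rw [sum_comm]
  refine sum_congr rfl fun j _ => ?_
  rw [← mul_sum]
  push_cast
  rfl

theorem DH_F2 (s k : ℕ) (A : Finset ℤ) (c : ↥(Icc 1 k) → ℝ) :
    (((‖∑ v ∈ A, ee (∑ j, c j * (v : ℝ) ^ (j : ℕ))‖ ^ (2 * s) : ℝ)) : ℂ) =
      ∑ w ∈ DH_P s A, ee (∑ j, c j * (DH_D s k w j : ℝ)) := by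
  have h1 : (((‖∑ v ∈ A, ee (∑ j, c j * (v : ℝ) ^ (j : ℕ))‖ ^ (2 * s) : ℝ)) : ℂ) =
      (∑ v ∈ A, ee (∑ j, c j * (v : ℝ) ^ (j : ℕ))) ^ s *
        (∑ v ∈ A, (starRingEnd ℂ) (ee (∑ j, c j * (v : ℝ) ^ (j : ℕ)))) ^ s := by
    rw [← map_sum, ← mul_pow, Complex.mul_conj', ← pow_mul]
    push_cast
    rfl
  rw [h1, sum_pow', sum_pow', sum_mul_sum, DH_P, sum_product]
  refine sum_congr rfl fun x _ => sum_congr rfl fun y _ => ?_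
  have h2 : ∏ i, ee (∑ j, c j * ((x i : ℤ) : ℝ) ^ (j : ℕ)) =
      ee (∑ j, c j * ((∑ i, x i ^ (j : ℕ) : ℤ) : ℝ)) := by
    rw [← DH_swap, DH_ee_sum]
  have h3 : ∏ i, (starRingEnd ℂ) (ee (∑ j, c j * ((y i : ℤ) : ℝ) ^ (j : ℕ))) =
      ee (-(∑ j, c j * ((∑ i, y i ^ (j : ℕ) : ℤ) : ℝ))) := by
    rw [h85_ee_neg, ← DH_swap, DH_ee_sum, map_prod]
  rw [h2, h3, ← h85_ee_add]
  congr 1
  rw [← sub_eq_add_neg, ← sum_sub_distrib]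
  refine sum_congr rfl fun j _ => ?_
  simp only [DH_D]
  push_cast
  ring

/-- power mean -/
theorem DH_pm {ι : Type*} (t : Finset ι) (f : ι → ℝ) (hf : ∀ i ∈ t, 0 ≤ f i) (n : ℕ) :
    (∑ i ∈ t, f i) ^ (n + 1) ≤ (#t : ℝ) ^ n * ∑ i ∈ t, f i ^ (n + 1) := by
  rcases t.eq_empty_or_nonempty with h | h
  · rw [h]
    simp
  · have h1 := pow_sum_div_card_le_sum_pow hf n
    have h2 : (0 : ℝ) < (#t : ℝ) ^ n := by
      have : (0 : ℝ) < #t := by exact_mod_cast h.card_pos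
      positivity
    rw [div_le_iff₀ h2] at h1
    rw [mul_comm]
    exact h1

theorem DH_geo (M : ℕ) (β : ℝ) :
    ‖∑ m ∈ Icc (-(M : ℤ)) (M : ℤ), ee ((m : ℝ) * β)‖ ≤ gb ((2 * M + 1 : ℕ) : ℝ) β := by
  have h1 : Icc (-(M : ℤ)) (M : ℤ) = (Ioc 0 (2 * M + 1)).image
      (fun n : ℕ => (n : ℤ) - (M + 1)) := by
    ext m
    simp only [mem_Icc, mem_image, mem_Ioc]
    constructor
    · intro h
      exact ⟨(m + (M + 1)).toNat, by omega, by omega⟩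
    · rintro ⟨n, hn, rfl⟩
      omega
  rw [h1, sum_image (by
    intro a _ b _ hab
    simp only at hab
    omega)]
  have h2 : ∀ n ∈ Ioc 0 (2 * M + 1), ee ((((n : ℤ) - (M + 1) : ℤ) : ℝ) * β) =
      ee (-((M : ℝ) + 1) * β) * ee ((n : ℝ) * β) := by
    intro n _
    rw [← h85_ee_add]
    congr 1
    push_cast
    ring
  rw [sum_congr rfl h2, ← mul_sum, norm_mul, h85_norm_ee, one_mul]
  have h3 := geom_bound 0 (2 * M + 1) (Nat.zero_le _) β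
  have h4 : (((2 * M + 1 : ℕ) : ℝ) - ((0 : ℕ) : ℝ)) = ((2 * M + 1 : ℕ) : ℝ) := by
    rw [Nat.cast_zero, sub_zero]
  rw [h4] at h3
  exact h3

theorem DH_gb_nonneg {X β : ℝ} (hX : 0 ≤ X) : 0 ≤ gb X β := by
  unfold gb
  split_ifs
  · exact hX
  · positivity

/-- the box -/
noncomputable def DH_box (s k Y : ℕ) : Finset (↥(Icc 1 k) → ℤ) :=
  Fintype.piFinset fun j => Icc (-((s * Y ^ (j : ℕ) : ℕ) : ℤ)) ((s * Y ^ (j : ℕ) : ℕ) : ℤ)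

theorem DH_mem_box (s k Y : ℕ) (w : (Fin s → ℤ) × (Fin s → ℤ))
    (hw : w ∈ DH_P s (Ioc 0 (Y : ℤ))) : DH_D s k w ∈ DH_box s k Y := by
  unfold DH_P at hw
  rw [mem_product, Fintype.mem_piFinset, Fintype.mem_piFinset] at hw
  unfold DH_box
  rw [Fintype.mem_piFinset]
  intro j
  have hb : ∀ x : Fin s → ℤ, (∀ i, x i ∈ Ioc 0 (Y : ℤ)) →
      0 ≤ ∑ i, x i ^ (j : ℕ) ∧ ∑ i, x i ^ (j : ℕ) ≤ ((s * Y ^ (j : ℕ) : ℕ) : ℤ) := by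
    intro x hx
    refine ⟨sum_nonneg fun i _ => ?_, ?_⟩
    · have := (mem_Ioc.1 (hx i)).1
      positivity
    · calc ∑ i, x i ^ (j : ℕ) ≤ ∑ _i : Fin s, (Y : ℤ) ^ (j : ℕ) := by
            refine sum_le_sum fun i _ => ?_
            exact pow_le_pow_left₀ (mem_Ioc.1 (hx i)).1.le (mem_Ioc.1 (hx i)).2 _
        _ = ((s * Y ^ (j : ℕ) : ℕ) : ℤ) := by
            rw [sum_const, card_univ, Fintype.card_fin, nsmul_eq_mul]
            push_cast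
            rfl
  have h1 := hb w.1 hw.1
  have h2 := hb w.2 hw.2
  simp only [DH_D]
  rw [mem_Icc]
  constructor
  · linarith [h1.1, h2.2]
  · linarith [h1.2, h2.1]

theorem DH_rep (hJB : JB_stmt) (s k Y : ℕ) (ν : ↥(Icc 1 k) → ℤ) :
    #((DH_P s (Ioc 0 (Y : ℤ))).filter fun w => DH_D s k w = ν) ≤ JV s k Y := by
  classical
  refine le_trans (card_le_card ?_)
    (hJB.2.2.1 s k (Ioc 0 (Y : ℤ)) fun j => if h : j ∈ Icc 1 k then ν ⟨j, h⟩ else 0)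
  intro w hw
  rw [mem_filter] at hw ⊢
  refine ⟨hw.1, fun j hj => ?_⟩
  rw [dif_pos hj]
  have h1 := congrFun hw.2 ⟨j, hj⟩
  simp only [DH_D] at h1
  linarith

theorem DH_dbl (s k : ℕ) (A : Finset ℤ) (n : ℕ) (hn : n = s + s) :
    #((DH_P s A ×ˢ DH_P s A).filter fun z => DH_D s k z.1 = DH_D s k z.2) ≤ JJ n k A := by
  classical
  subst hn
  unfold JJ
  refine card_le_card_of_injOn
    (fun z => (Fin.append z.1.1 z.2.2, Fin.append z.2.1 z.1.2)) ?_ ?_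
  · intro z hz
    rw [mem_coe, mem_filter, mem_product] at hz
    obtain ⟨⟨hz1, hz2⟩, hz3⟩ := hz
    unfold DH_P at hz1 hz2
    rw [mem_product, Fintype.mem_piFinset, Fintype.mem_piFinset] at hz1 hz2
    have happ : ∀ x y : Fin s → ℤ, (∀ i, x i ∈ A) → (∀ i, y i ∈ A) →
        ∀ i, Fin.append x y i ∈ A := by
      intro x y hx hy i
      refine Fin.addCases (fun i => ?_) (fun i => ?_) i
      · rw [Fin.append_left]
        exact hx i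
      · rw [Fin.append_right]
        exact hy i
    rw [mem_coe, mem_filter, mem_product, Fintype.mem_piFinset, Fintype.mem_piFinset]
    refine ⟨⟨happ _ _ hz1.1 hz2.2, happ _ _ hz2.1 hz1.2⟩, ?_⟩
    intro j hj
    have h1 := congrFun hz3 ⟨j, hj⟩
    simp only [DH_D] at h1
    simp only [Fin.sum_univ_add, Fin.append_left, Fin.append_right]
    linarith
  · intro z _ z' _ h
    simp only [Prod.mk.injEq] at h
    obtain ⟨h1, h2⟩ := h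
    have hl : ∀ x y x' y' : Fin s → ℤ, Fin.append x y = Fin.append x' y' → x = x' ∧ y = y' := by
      intro x y x' y' h
      constructor
      · funext i
        have := congrFun h (Fin.castAdd s i)
        rwa [Fin.append_left, Fin.append_left] at this
      · funext i
        have := congrFun h (Fin.natAdd s i)
        rwa [Fin.append_right, Fin.append_right] at this
    obtain ⟨e1, e2⟩ := hl _ _ _ _ h1
    obtain ⟨e3, e4⟩ := hl _ _ _ _ h2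
    exact Prod.ext (Prod.ext e1 e4) (Prod.ext e3 e2)

/-- the inner sums -/
noncomputable def DH_S (k Y : ℕ) (α : ℕ → ℝ) (μ : ↥(Icc 1 k) → ℤ) : ℂ :=
  ∑ u ∈ Ioc 0 (Y : ℤ), ee (∑ j : ↥(Icc 1 k), (α j * (μ j : ℝ)) * (u : ℝ) ^ (j : ℕ))

theorem DH_step4 (hJB : JB_stmt) (s k Y : ℕ) (α : ℕ → ℝ) :
    ∑ μ ∈ DH_box s k Y, ‖DH_S k Y α μ‖ ^ (2 * s) ≤
      JV s k Y * ∏ j ∈ Icc 1 k, ∑ μ ∈ Icc (-((s * Y ^ j : ℕ) : ℤ)) ((s * Y ^ j : ℕ) : ℤ),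
        gb ((2 * s * Y ^ j + 1 : ℕ) : ℝ) (α j * μ) := by
  classical
  have h1 : ((∑ μ ∈ DH_box s k Y, ‖DH_S k Y α μ‖ ^ (2 * s) : ℝ) : ℂ) =
      ∑ w ∈ DH_P s (Ioc 0 (Y : ℤ)), ∏ j : ↥(Icc 1 k),
        ∑ m ∈ Icc (-((s * Y ^ (j : ℕ) : ℕ) : ℤ)) ((s * Y ^ (j : ℕ) : ℕ) : ℤ),
          ee ((m : ℝ) * (α j * (DH_D s k w j : ℝ))) := by
    rw [Complex.ofReal_sum]
    have h2 : ∀ μ ∈ DH_box s k Y, ((‖DH_S k Y α μ‖ ^ (2 * s) : ℝ) : ℂ) =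
        ∑ w ∈ DH_P s (Ioc 0 (Y : ℤ)), ∏ j, ee ((μ j : ℝ) * (α j * (DH_D s k w j : ℝ))) := by
      intro μ _
      unfold DH_S
      rw [DH_F2]
      refine sum_congr rfl fun w _ => ?_
      rw [← DH_ee_sum]
      congr 1
      refine sum_congr rfl fun j _ => ?_
      ring
    rw [sum_congr rfl h2, sum_comm]
    refine sum_congr rfl fun w _ => ?_
    rw [prod_univ_sum]
    rfl
  have h3 : ∑ μ ∈ DH_box s k Y, ‖DH_S k Y α μ‖ ^ (2 * s) ≤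
      ∑ w ∈ DH_P s (Ioc 0 (Y : ℤ)), ∏ j : ↥(Icc 1 k),
        gb ((2 * s * Y ^ (j : ℕ) + 1 : ℕ) : ℝ) (α j * (DH_D s k w j : ℝ)) := by
    have h4 : ∑ μ ∈ DH_box s k Y, ‖DH_S k Y α μ‖ ^ (2 * s) =
        ‖((∑ μ ∈ DH_box s k Y, ‖DH_S k Y α μ‖ ^ (2 * s) : ℝ) : ℂ)‖ := by
      rw [Complex.norm_real, Real.norm_eq_abs, abs_of_nonneg]
      exact sum_nonneg fun μ _ => by positivity
    rw [h4, h1]
    refine (norm_sum_le _ _).trans (sum_le_sum fun w _ => ?_)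
    rw [norm_prod]
    refine prod_le_prod (fun j _ => norm_nonneg _) fun j _ => ?_
    have h5 := DH_geo (s * Y ^ (j : ℕ)) (α j * (DH_D s k w j : ℝ))
    have h6 : 2 * (s * Y ^ (j : ℕ)) + 1 = 2 * s * Y ^ (j : ℕ) + 1 := by ring
    rw [h6] at h5
    exact h5
  refine h3.trans ?_
  rw [← sum_fiberwise_of_maps_to (s := DH_P s (Ioc 0 (Y : ℤ))) (t := DH_box s k Y)
    (g := DH_D s k) (fun w hw => DH_mem_box s k Y w hw)]
  have h7 : ∏ j ∈ Icc 1 k, ∑ μ ∈ Icc (-((s * Y ^ j : ℕ) : ℤ)) ((s * Y ^ j : ℕ) : ℤ),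
        gb ((2 * s * Y ^ j + 1 : ℕ) : ℝ) (α j * μ) =
      ∑ ν ∈ DH_box s k Y, ∏ j : ↥(Icc 1 k),
        gb ((2 * s * Y ^ (j : ℕ) + 1 : ℕ) : ℝ) (α j * (ν j : ℝ)) := by
    rw [← prod_coe_sort, prod_univ_sum]
    rfl
  rw [h7, mul_sum]
  refine sum_le_sum fun ν _ => ?_
  have h8 : ∑ w ∈ (DH_P s (Ioc 0 (Y : ℤ))).filter (fun w => DH_D s k w = ν),
      ∏ j : ↥(Icc 1 k),
        gb ((2 * s * Y ^ (j : ℕ) + 1 : ℕ) : ℝ) (α j * (DH_D s k w j : ℝ)) =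
      (#((DH_P s (Ioc 0 (Y : ℤ))).filter fun w => DH_D s k w = ν) : ℝ) *
        ∏ j : ↥(Icc 1 k),
          gb ((2 * s * Y ^ (j : ℕ) + 1 : ℕ) : ℝ) (α j * (ν j : ℝ)) := by
    rw [← nsmul_eq_mul, ← sum_const]
    refine sum_congr rfl fun w hw => ?_
    rw [(mem_filter.1 hw).2]
  rw [h8]
  refine mul_le_mul_of_nonneg_right ?_ (prod_nonneg fun j _ => DH_gb_nonneg (Nat.cast_nonneg _))
  exact_mod_cast DH_rep hJB s k Y ν

theorem DH_step2 (s k Y : ℕ) (α : ℕ → ℝ) :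
    ∑ u ∈ Ioc 0 (Y : ℤ), ‖∑ v ∈ Ioc 0 (Y : ℤ),
      ee (∑ j : ↥(Icc 1 k), (α j * (u : ℝ) ^ (j : ℕ)) * (v : ℝ) ^ (j : ℕ))‖ ^ (2 * s) ≤
      ∑ w ∈ DH_P s (Ioc 0 (Y : ℤ)), ‖DH_S k Y α (DH_D s k w)‖ := by
  have h1 : ((∑ u ∈ Ioc 0 (Y : ℤ), ‖∑ v ∈ Ioc 0 (Y : ℤ),
      ee (∑ j : ↥(Icc 1 k), (α j * (u : ℝ) ^ (j : ℕ)) * (v : ℝ) ^ (j : ℕ))‖ ^ (2 * s) :
        ℝ) : ℂ) = ∑ w ∈ DH_P s (Ioc 0 (Y : ℤ)), DH_S k Y α (DH_D s k w) := by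
    rw [Complex.ofReal_sum]
    have h2 : ∀ u ∈ Ioc 0 (Y : ℤ), ((‖∑ v ∈ Ioc 0 (Y : ℤ),
      ee (∑ j : ↥(Icc 1 k), (α j * (u : ℝ) ^ (j : ℕ)) * (v : ℝ) ^ (j : ℕ))‖ ^ (2 * s) :
        ℝ) : ℂ) = ∑ w ∈ DH_P s (Ioc 0 (Y : ℤ)),
          ee (∑ j : ↥(Icc 1 k), (α j * (DH_D s k w j : ℝ)) * (u : ℝ) ^ (j : ℕ)) := by
      intro u _
      rw [DH_F2 s k (Ioc 0 (Y : ℤ)) fun j => α j * (u : ℝ) ^ (j : ℕ)]
      refine sum_congr rfl fun w _ => ?_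
      congr 1
      refine sum_congr rfl fun j _ => ?_
      ring
    rw [sum_congr rfl h2, sum_comm]
    rfl
  have h4 : ∑ u ∈ Ioc 0 (Y : ℤ), ‖∑ v ∈ Ioc 0 (Y : ℤ),
      ee (∑ j : ↥(Icc 1 k), (α j * (u : ℝ) ^ (j : ℕ)) * (v : ℝ) ^ (j : ℕ))‖ ^ (2 * s) =
      ‖((∑ u ∈ Ioc 0 (Y : ℤ), ‖∑ v ∈ Ioc 0 (Y : ℤ),
      ee (∑ j : ↥(Icc 1 k), (α j * (u : ℝ) ^ (j : ℕ)) * (v : ℝ) ^ (j : ℕ))‖ ^ (2 * s) :
        ℝ) : ℂ)‖ := by
    rw [Complex.norm_real, Real.norm_eq_abs, abs_of_nonneg]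
    exact sum_nonneg fun μ _ => by positivity
  rw [h4, h1]
  exact norm_sum_le _ _

theorem DH_step3 (t k Y : ℕ) (α : ℕ → ℝ) :
    (∑ w ∈ DH_P (t + 1) (Ioc 0 (Y : ℤ)), ‖DH_S k Y α (DH_D (t + 1) k w)‖) ^ (2 * (t + 1)) ≤
      (Y : ℝ) ^ (2 * (t + 1) * (2 * t)) * (JV (2 * (t + 1)) k Y *
        ∑ μ ∈ DH_box (t + 1) k Y, ‖DH_S k Y α μ‖ ^ (2 * (t + 1))) := by
  classical
  set P := DH_P (t + 1) (Ioc 0 (Y : ℤ)) with hP
  have hcard : (#P : ℝ) = (Y : ℝ) ^ (2 * (t + 1)) := by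
    rw [hP]
    unfold DH_P
    rw [card_product, Fintype.card_piFinset_const, Int.card_Ioc]
    simp only [sub_zero, Int.toNat_natCast]
    push_cast
    ring
  have h1 := DH_pm P (fun w => ‖DH_S k Y α (DH_D (t + 1) k w)‖) (fun _ _ => norm_nonneg _) t
  have h2 : ∑ w ∈ P, ‖DH_S k Y α (DH_D (t + 1) k w)‖ ^ (t + 1) =
      ∑ μ ∈ DH_box (t + 1) k Y, (#(P.filter fun w => DH_D (t + 1) k w = μ) : ℝ) *
        ‖DH_S k Y α μ‖ ^ (t + 1) := by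
    rw [← sum_fiberwise_of_maps_to (s := P) (t := DH_box (t + 1) k Y)
      (g := DH_D (t + 1) k) (fun w hw => DH_mem_box (t + 1) k Y w hw)]
    refine sum_congr rfl fun μ _ => ?_
    rw [← nsmul_eq_mul, ← sum_const]
    refine sum_congr rfl fun w hw => ?_
    rw [(mem_filter.1 hw).2]
  have h3 : (∑ w ∈ P, ‖DH_S k Y α (DH_D (t + 1) k w)‖ ^ (t + 1)) ^ 2 ≤
      (∑ μ ∈ DH_box (t + 1) k Y, (#(P.filter fun w => DH_D (t + 1) k w = μ) : ℝ) ^ 2) *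
        ∑ μ ∈ DH_box (t + 1) k Y, ‖DH_S k Y α μ‖ ^ (2 * (t + 1)) := by
    rw [h2]
    refine (sum_mul_sq_le_sq_mul_sq _ _ _).trans (le_of_eq ?_)
    congr 1
    refine sum_congr rfl fun μ _ => ?_
    rw [← pow_mul]
    congr 1
    ring
  have h4 : ∑ μ ∈ DH_box (t + 1) k Y, (#(P.filter fun w => DH_D (t + 1) k w = μ) : ℝ) ^ 2 ≤
      (JV (2 * (t + 1)) k Y : ℝ) := by
    have h5 : ∑ μ ∈ DH_box (t + 1) k Y, (#(P.filter fun w => DH_D (t + 1) k w = μ)) ^ 2 ≤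
        JV (2 * (t + 1)) k Y := by
      refine le_trans ?_ (DH_dbl (t + 1) k (Ioc 0 (Y : ℤ)) (2 * (t + 1)) (by ring))
      have h6 : ∀ z ∈ (P ×ˢ P).filter (fun z => DH_D (t + 1) k z.1 = DH_D (t + 1) k z.2),
          DH_D (t + 1) k z.1 ∈ DH_box (t + 1) k Y := by
        intro z hz
        exact DH_mem_box (t + 1) k Y z.1 (mem_product.1 (mem_filter.1 hz).1).1
      rw [card_eq_sum_card_fiberwise h6]
      refine sum_le_sum fun μ _ => ?_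
      rw [sq, ← card_product]
      refine card_le_card fun z hz => ?_
      rw [mem_product, mem_filter, mem_filter] at hz
      rw [mem_filter, mem_filter, mem_product]
      exact ⟨⟨⟨hz.1.1, hz.2.1⟩, by rw [hz.1.2, hz.2.2]⟩, hz.1.2⟩
    exact_mod_cast h5
  have h0 : 0 ≤ ∑ w ∈ P, ‖DH_S k Y α (DH_D (t + 1) k w)‖ := sum_nonneg fun _ _ => norm_nonneg _
  calc (∑ w ∈ P, ‖DH_S k Y α (DH_D (t + 1) k w)‖) ^ (2 * (t + 1))
      = ((∑ w ∈ P, ‖DH_S k Y α (DH_D (t + 1) k w)‖) ^ (t + 1)) ^ 2 := by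
        rw [← pow_mul]
        congr 1
        ring
    _ ≤ ((#P : ℝ) ^ t * ∑ w ∈ P, ‖DH_S k Y α (DH_D (t + 1) k w)‖ ^ (t + 1)) ^ 2 :=
        pow_le_pow_left₀ (pow_nonneg h0 _) h1 2
    _ = (Y : ℝ) ^ (2 * (t + 1) * (2 * t)) *
        (∑ w ∈ P, ‖DH_S k Y α (DH_D (t + 1) k w)‖ ^ (t + 1)) ^ 2 := by
        rw [mul_pow, hcard, ← pow_mul, ← pow_mul]
        congr 2
        ring
    _ ≤ (Y : ℝ) ^ (2 * (t + 1) * (2 * t)) * (JV (2 * (t + 1)) k Y *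
        ∑ μ ∈ DH_box (t + 1) k Y, ‖DH_S k Y α μ‖ ^ (2 * (t + 1))) := by
        refine mul_le_mul_of_nonneg_left (h3.trans ?_) (by positivity)
        exact mul_le_mul_of_nonneg_right h4 (sum_nonneg fun _ _ => by positivity)

theorem DH (hJB : JB_stmt) : DH_stmt := by
  classical
  intro s k Y α hs hY
  obtain ⟨t, rfl⟩ : ∃ t, s = t + 1 := ⟨s - 1, by omega⟩
  -- integer form
  have himg : Ioc 0 (Y : ℤ) = (Ioc 0 Y).image (fun n : ℕ => (n : ℤ)) := by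
    ext m
    simp only [mem_Ioc, mem_image]
    constructor
    · intro h
      exact ⟨m.toNat, by omega, by omega⟩
    · rintro ⟨n, hn, rfl⟩
      omega
  have hsum : ∀ f : ℤ → ℂ, ∑ n ∈ Ioc 0 Y, f (n : ℤ) = ∑ m ∈ Ioc 0 (Y : ℤ), f m := by
    intro f
    rw [himg, sum_image (by
      intro a _ b _ hab
      simpa using hab)]
  have e0 : ∑ u ∈ Ioc 0 Y, ∑ v ∈ Ioc 0 Y, ee (∑ j ∈ Icc 1 k, α j * ((u : ℝ) * v) ^ j) =
      ∑ u ∈ Ioc 0 (Y : ℤ), ∑ v ∈ Ioc 0 (Y : ℤ),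
        ee (∑ j : ↥(Icc 1 k), (α j * (u : ℝ) ^ (j : ℕ)) * (v : ℝ) ^ (j : ℕ)) := by
    rw [← hsum]
    refine sum_congr rfl fun u _ => ?_
    rw [← hsum]
    refine sum_congr rfl fun v _ => ?_
    congr 1
    rw [← sum_coe_sort]
    refine sum_congr rfl fun j _ => ?_
    push_cast
    rw [mul_pow]
    ring
  rw [e0]
  set W := ∑ u ∈ Ioc 0 (Y : ℤ), ∑ v ∈ Ioc 0 (Y : ℤ),
        ee (∑ j : ↥(Icc 1 k), (α j * (u : ℝ) ^ (j : ℕ)) * (v : ℝ) ^ (j : ℕ)) with hW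
  set T := ∑ w ∈ DH_P (t + 1) (Ioc 0 (Y : ℤ)), ‖DH_S k Y α (DH_D (t + 1) k w)‖ with hT
  have hT0 : 0 ≤ T := sum_nonneg fun _ _ => norm_nonneg _
  have h1 : ‖W‖ ^ (2 * (t + 1)) ≤ (Y : ℝ) ^ (2 * t + 1) * T := by
    have h2 : ‖W‖ ≤ ∑ u ∈ Ioc 0 (Y : ℤ), ‖∑ v ∈ Ioc 0 (Y : ℤ),
        ee (∑ j : ↥(Icc 1 k), (α j * (u : ℝ) ^ (j : ℕ)) * (v : ℝ) ^ (j : ℕ))‖ :=
      norm_sum_le _ _
    have h3 := DH_pm (Ioc 0 (Y : ℤ)) (fun u => ‖∑ v ∈ Ioc 0 (Y : ℤ),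
        ee (∑ j : ↥(Icc 1 k), (α j * (u : ℝ) ^ (j : ℕ)) * (v : ℝ) ^ (j : ℕ))‖)
        (fun _ _ => norm_nonneg _) (2 * t + 1)
    have h4 : (#(Ioc 0 (Y : ℤ)) : ℝ) = Y := by
      rw [Int.card_Ioc]
      simp
    rw [h4] at h3
    have h5 : 2 * t + 1 + 1 = 2 * (t + 1) := by ring
    rw [h5] at h3
    calc ‖W‖ ^ (2 * (t + 1)) ≤ _ := pow_le_pow_left₀ (norm_nonneg _) h2 _
      _ ≤ _ := h3
      _ ≤ (Y : ℝ) ^ (2 * t + 1) * T :=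
        mul_le_mul_of_nonneg_left (DH_step2 (t + 1) k Y α) (by positivity)
  have h6 := DH_step3 t k Y α
  have h7 := DH_step4 hJB (t + 1) k Y α
  rw [← hT] at h6
  set G := ∏ j ∈ Icc 1 k, ∑ μ ∈ Icc (-(((t + 1) * Y ^ j : ℕ) : ℤ)) (((t + 1) * Y ^ j : ℕ) : ℤ),
        gb ((2 * (t + 1) * Y ^ j + 1 : ℕ) : ℝ) (α j * μ) with hG
  have e1 : 4 * (t + 1) ^ 2 = 2 * (t + 1) * (2 * (t + 1)) := by ring
  have e2 : 8 * (t + 1) ^ 2 - 6 * (t + 1) = (2 * t + 1) * (2 * (t + 1)) + 2 * (t + 1) * (2 * t) := by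
    have : 8 * (t + 1) ^ 2 = (2 * t + 1) * (2 * (t + 1)) + 2 * (t + 1) * (2 * t) + 6 * (t + 1) := by
      ring
    omega
  rw [e1, e2, pow_mul]
  calc (‖W‖ ^ (2 * (t + 1))) ^ (2 * (t + 1)) ≤ ((Y : ℝ) ^ (2 * t + 1) * T) ^ (2 * (t + 1)) :=
        pow_le_pow_left₀ (by positivity) h1 _
    _ = (Y : ℝ) ^ ((2 * t + 1) * (2 * (t + 1))) * T ^ (2 * (t + 1)) := by
        rw [mul_pow, ← pow_mul]
    _ ≤ (Y : ℝ) ^ ((2 * t + 1) * (2 * (t + 1))) * ((Y : ℝ) ^ (2 * (t + 1) * (2 * t)) *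
        (JV (2 * (t + 1)) k Y * (JV (t + 1) k Y * G))) := by
        refine mul_le_mul_of_nonneg_left (h6.trans ?_) (by positivity)
        refine mul_le_mul_of_nonneg_left ?_ (by positivity)
        exact mul_le_mul_of_nonneg_left h7 (by positivity)
    _ = (Y : ℝ) ^ ((2 * t + 1) * (2 * (t + 1)) + 2 * (t + 1) * (2 * t)) *
        JV (2 * (t + 1)) k Y * JV (t + 1) k Y * G := by
        rw [pow_add]
        ring

end Pool.Agent.CH
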