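import Pool.Agent.helper17.CH.SpecV

/-!
# Project CH, row REC
-/

set_option autoImplicit false

namespace Pool.Agent.CH

open Finset

private theorem REC_primes (Y : ℕ) (hY : Y ≠ 0) : ∀ r : ℕ, ∃ P : Finset ℕ, #P = r ∧
    ∀ p ∈ P, p.Prime ∧ Y < p ∧ p ≤ 2 ^ r * Y := by
  intro r
  induction r with
  | zero => exact ⟨∅, rfl, by simp⟩
  | succ r ih =>
    obtain ⟨P, hc, hP⟩ := ih
    obtain ⟨q, hq, h1, h2⟩ := Nat.exists_prime_lt_and_le_two_mul (2 ^ r * Y)
      (Nat.mul_ne_zero (by positivity) hY)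
    have hqP : q ∉ P := fun h => by
      have := (hP q h).2.2
      omega
    have h3 : Y ≤ 2 ^ r * Y := Nat.le_mul_of_pos_left Y (by positivity)
    refine ⟨insert q P, by rw [card_insert_of_notMem hqP, hc], ?_⟩
    intro p hp
    rw [mem_insert] at hp
    rcases hp with rfl | hp
    · refine ⟨hq, by omega, ?_⟩
      calc p ≤ 2 * (2 ^ r * Y) := h2
        _ = 2 ^ (r + 1) * Y := by ring
    · obtain ⟨a, b, c⟩ := hP p hp
      refine ⟨a, b, ?_⟩
      calc p ≤ 2 ^ r * Y := c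
        _ ≤ 2 ^ (r + 1) * Y := by
          apply Nat.mul_le_mul_right
          exact Nat.pow_le_pow_right (by norm_num) (by omega)

private theorem REC_notdvd (Y r : ℕ) (P : Finset ℕ) (hc : #P = r)
    (hP : ∀ p ∈ P, p.Prime ∧ Y < p) (D : ℤ) (hD : D ≠ 0) (hD2 : D.natAbs < Y ^ r) :
    ∃ p ∈ P, ¬ (p : ℤ) ∣ D := by
  by_contra hcon
  push Not at hcon
  have h1 : ∏ p ∈ P, p ∣ D.natAbs := by
    apply Finset.prod_primes_dvd
    · intro a ha
      exact (hP a ha).1.prime
    · intro a ha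
      have := hcon a ha
      exact Int.natCast_dvd.mp this
  have h2 : ∏ p ∈ P, p ≤ D.natAbs := Nat.le_of_dvd (Int.natAbs_pos.mpr hD) h1
  have h3 : Y ^ r ≤ ∏ p ∈ P, p := by
    rw [← hc]
    exact Finset.pow_card_le_prod _ _ _ (fun p hp => (hP p hp).2.le)
  omega

private theorem REC_diff (k X : ℕ) (x : Fin k → ℤ) (hx : ∀ i, 1 ≤ x i ∧ x i ≤ X)
    (hinj : Function.Injective x) :
    ∃ D : ℤ, D ≠ 0 ∧ D.natAbs ≤ (X - 1) ^ (∑ i ∈ range k, i) ∧
      ∀ p : ℕ, ¬ (p : ℤ) ∣ D → ∀ i i' : Fin k, i ≠ i' → ¬ (p : ℤ) ∣ x i - x i' := by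
  refine ⟨∏ i : Fin k, ∏ j ∈ Ioi i, (x j - x i), ?_, ?_, ?_⟩
  · rw [Finset.prod_ne_zero_iff]
    intro i _
    rw [Finset.prod_ne_zero_iff]
    intro j hj h
    have h1 : i < j := mem_Ioi.mp hj
    exact h1.ne (hinj (by linarith))
  · have h0 : (∏ i : Fin k, ∏ j ∈ Ioi i, (x j - x i)).natAbs =
        ∏ i : Fin k, ∏ j ∈ Ioi i, (x j - x i).natAbs := by
      rw [← Int.natAbsHom_apply, map_prod]
      refine Finset.prod_congr rfl fun i _ => ?_
      rw [map_prod]
      rfl
    rw [h0]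
    have h1 : ∀ i : Fin k, ∏ j ∈ Ioi i, (x j - x i).natAbs ≤ (X - 1) ^ (k - 1 - (i : ℕ)) := by
      intro i
      rw [← Fin.card_Ioi]
      refine Finset.prod_le_pow_card _ _ _ fun j _ => ?_
      have := hx i
      have := hx j
      omega
    calc ∏ i : Fin k, ∏ j ∈ Ioi i, (x j - x i).natAbs
        ≤ ∏ i : Fin k, (X - 1) ^ (k - 1 - (i : ℕ)) := Finset.prod_le_prod' fun i _ => h1 i
      _ = (X - 1) ^ (∑ i : Fin k, (k - 1 - (i : ℕ))) := by rw [Finset.prod_pow_eq_pow_sum]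
      _ = (X - 1) ^ (∑ i ∈ range k, i) := by
        rw [Fin.sum_univ_eq_sum_range (fun i => k - 1 - i) k, Finset.sum_range_reflect (fun i => i) k]
  · intro p hp i i' hii h
    apply hp
    rcases lt_or_gt_of_ne hii with hlt | hlt
    · have h2 : (p : ℤ) ∣ x i' - x i := by
        have := (dvd_neg (α := ℤ)).mpr h
        simpa using this
      exact (h2.trans (Finset.dvd_prod_of_mem (fun j => x j - x i) (mem_Ioi.mpr hlt))).trans
        (Finset.dvd_prod_of_mem (fun i => ∏ j ∈ Ioi i, (x j - x i)) (mem_univ i))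
    · exact (h.trans (Finset.dvd_prod_of_mem (fun j => x j - x i') (mem_Ioi.mpr hlt))).trans
        (Finset.dvd_prod_of_mem (fun i => ∏ j ∈ Ioi i, (x j - x i)) (mem_univ i'))

/-- the solutions with at least `k` distinct values on the positions `I`, `I'` modulo `p` -/
private theorem REC_inj (s k X p : ℕ) (I I' : Finset (Fin (s + k))) (hI : #I = k) (hI' : #I' = k) :
    #((((Fintype.piFinset fun _ : Fin (s + k) => Ioc 0 (X : ℤ)) ×ˢ
      (Fintype.piFinset fun _ : Fin (s + k) => Ioc 0 (X : ℤ))).filter fun w =>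
        ∀ j ∈ Icc 1 k, ∑ i, w.1 i ^ j = ∑ i, w.2 i ^ j).filter fun w =>
        (∀ i ∈ I, ∀ i' ∈ I, i ≠ i' → ¬ (p : ℤ) ∣ w.1 i - w.1 i') ∧
        (∀ i ∈ I', ∀ i' ∈ I', i ≠ i' → ¬ (p : ℤ) ∣ w.2 i - w.2 i')) ≤
      Q4 s k (DM k p X) (Ioc 0 (X : ℤ)) := by
  have hc : #Iᶜ = s := by rw [card_compl, hI, Fintype.card_fin]; omega
  have hc' : #I'ᶜ = s := by rw [card_compl, hI', Fintype.card_fin]; omega
  set e := finSumEquivOfFinset hI hc with he
  set e' := finSumEquivOfFinset hI' hc' with he'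
  have hsum : ∀ (x : Fin (s + k) → ℤ) (j : ℕ), ∑ i, x i ^ j =
      ∑ i : Fin k, x (e (Sum.inl i)) ^ j + ∑ i : Fin s, x (e (Sum.inr i)) ^ j := by
    intro x j
    rw [← e.sum_comp (fun i => x i ^ j), Fintype.sum_sum_type]
  have hsum' : ∀ (x : Fin (s + k) → ℤ) (j : ℕ), ∑ i, x i ^ j =
      ∑ i : Fin k, x (e' (Sum.inl i)) ^ j + ∑ i : Fin s, x (e' (Sum.inr i)) ^ j := by
    intro x j
    rw [← e'.sum_comp (fun i => x i ^ j), Fintype.sum_sum_type]
  unfold Q4
  refine Finset.card_le_card_of_injOn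
    (fun w => (((fun i => w.1 (e (Sum.inl i))), (fun i => w.2 (e' (Sum.inl i)))),
      ((fun i => w.1 (e (Sum.inr i))), (fun i => w.2 (e' (Sum.inr i)))))) ?_ ?_
  · intro w hw
    simp only [coe_filter, mem_product, Fintype.mem_piFinset, Set.mem_ofPred_eq, mem_filter] at hw
    obtain ⟨⟨⟨hw1, hw2⟩, hw3⟩, hw4, hw5⟩ := hw
    simp only [coe_filter, mem_product, Fintype.mem_piFinset, Set.mem_ofPred_eq, DM, mem_filter]
    refine ⟨⟨⟨⟨fun i => hw1 _, ?_⟩, ⟨fun i => hw2 _, ?_⟩⟩, ⟨fun i => hw1 _, fun i => hw2 _⟩⟩, ?_⟩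
    · intro i i' hii
      apply hw4
      · rw [he, finSumEquivOfFinset_inl]; exact Finset.orderEmbOfFin_mem _ _ _
      · rw [he, finSumEquivOfFinset_inl]; exact Finset.orderEmbOfFin_mem _ _ _
      · intro h
        exact hii (Sum.inl_injective (e.injective h))
    · intro i i' hii
      apply hw5
      · rw [he', finSumEquivOfFinset_inl]; exact Finset.orderEmbOfFin_mem _ _ _
      · rw [he', finSumEquivOfFinset_inl]; exact Finset.orderEmbOfFin_mem _ _ _
      · intro h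
        exact hii (Sum.inl_injective (e'.injective h))
    · intro j hj
      have := hw3 j hj
      rw [hsum, hsum'] at this
      exact this
  · intro w _ w' _ hww
    simp only [Prod.mk.injEq] at hww
    obtain ⟨⟨h1, h2⟩, h3, h4⟩ := hww
    have ha : w.1 = w'.1 := by
      funext i
      obtain ⟨j, rfl⟩ := e.surjective i
      rcases j with j | j
      · exact congrFun h1 j
      · exact congrFun h3 j
    have hb : w.2 = w'.2 := by
      funext i
      obtain ⟨j, rfl⟩ := e'.surjective i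
      rcases j with j | j
      · exact congrFun h2 j
      · exact congrFun h4 j
    exact Prod.ext ha hb

/-- tuples with fewer than `k` distinct values -/
private theorem REC_few (n k X : ℕ) (hX : 1 ≤ X) :
    #((Fintype.piFinset fun _ : Fin n => Ioc 0 (X : ℤ)).filter fun x => #(univ.image x) < k) ≤
      X ^ (k - 1) * k ^ n := by
  have h1 : ((Fintype.piFinset fun _ : Fin n => Ioc 0 (X : ℤ)).filter
      fun x => #(univ.image x) < k) ⊆
      ((Fintype.piFinset fun _ : Fin (k - 1) => Ioc 0 (X : ℤ)) ×ˢ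
        (univ : Finset (Fin n → Fin (k - 1)))).image fun v => fun i => v.1 (v.2 i) := by
    intro x hx
    rw [mem_filter, Fintype.mem_piFinset] at hx
    obtain ⟨hx1, hx2⟩ := hx
    rw [mem_image]
    have hcard : Fintype.card (univ.image x : Finset ℤ) ≤ Fintype.card (Fin (k - 1)) := by
      rw [Fintype.card_coe, Fintype.card_fin]
      omega
    obtain ⟨g⟩ := Function.Embedding.nonempty_of_card_le hcard
    refine ⟨(Function.extend g (fun t => (t : ℤ)) (fun _ => 1),
      fun i => g ⟨x i, mem_image_of_mem x (mem_univ i)⟩), ?_, ?_⟩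
    · rw [mem_product]
      refine ⟨?_, mem_univ _⟩
      rw [Fintype.mem_piFinset]
      intro j
      dsimp only
      by_cases hj : ∃ t, g t = j
      · obtain ⟨t, rfl⟩ := hj
        rw [g.injective.extend_apply]
        obtain ⟨i, _, hi⟩ := mem_image.mp t.2
        rw [← hi]
        exact hx1 i
      · rw [Function.extend_apply' _ _ _ hj]
        rw [mem_Ioc]
        constructor
        · norm_num
        · exact_mod_cast hX
    · funext i
      simp only
      rw [g.injective.extend_apply]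
  refine (card_le_card h1).trans (card_image_le.trans ?_)
  rw [card_product, Fintype.card_piFinset, card_univ, Fintype.card_fun, Fintype.card_fin, Fintype.card_fin]
  simp only [Int.card_Ioc, sub_zero, Int.toNat_natCast, prod_const, card_univ, Fintype.card_fin]
  exact Nat.mul_le_mul_left _ (Nat.pow_le_pow_left (by omega) _)

/-- a tuple with at least `k` distinct values is injective on some `k` positions -/
private theorem REC_many (n k : ℕ) (x : Fin n → ℤ) (hx : k ≤ #(univ.image x)) :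
    ∃ I : Finset (Fin n), #I = k ∧ Set.InjOn x I := by
  obtain ⟨t, ht, hc⟩ := Finset.exists_subset_card_eq hx
  have hs : Set.SurjOn x Set.univ (t : Set ℤ) := by
    intro y hy
    obtain ⟨i, _, hi⟩ := mem_image.mp (ht hy)
    exact ⟨i, trivial, hi⟩
  obtain ⟨u, _, hu1, hu2⟩ := Finset.exists_subset_injOn_image_eq_of_surjOn Set.univ t hs
  refine ⟨u, ?_, hu1⟩
  rw [← hc, ← hu2, Finset.card_image_of_injOn hu1]

/-- some prime separates the values -/
private theorem REC_sep (n k X Y : ℕ) (hk : 2 ≤ k) (hX : 2 ≤ X) (hXY : X ≤ Y ^ k) (P : Finset ℕ)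
    (hc : #P = k * (k * (k - 1))) (hP : ∀ p ∈ P, p.Prime ∧ Y < p) (x y : Fin n → ℤ)
    (hx : ∀ i, 1 ≤ x i ∧ x i ≤ X) (hy : ∀ i, 1 ≤ y i ∧ y i ≤ X) (I I' : Finset (Fin n))
    (hI : #I = k) (hI' : #I' = k) (hxI : Set.InjOn x I) (hyI : Set.InjOn y I') :
    ∃ p ∈ P, (∀ i ∈ I, ∀ i' ∈ I, i ≠ i' → ¬ (p : ℤ) ∣ x i - x i') ∧
      (∀ i ∈ I', ∀ i' ∈ I', i ≠ i' → ¬ (p : ℤ) ∣ y i - y i') := by
  obtain ⟨D, hD0, hD1, hD2⟩ := REC_diff k X (fun i => x (I.orderEmbOfFin hI i)) (fun i => hx _)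
    (fun i j hij => (I.orderEmbOfFin hI).injective
      (hxI (Finset.orderEmbOfFin_mem _ _ _) (Finset.orderEmbOfFin_mem _ _ _) hij))
  obtain ⟨D', hD0', hD1', hD2'⟩ := REC_diff k X (fun i => y (I'.orderEmbOfFin hI' i)) (fun i => hy _)
    (fun i j hij => (I'.orderEmbOfFin hI').injective
      (hyI (Finset.orderEmbOfFin_mem _ _ _) (Finset.orderEmbOfFin_mem _ _ _) hij))
  have hsum : (∑ i ∈ range k, i) + ∑ i ∈ range k, i = k * (k - 1) := by
    have := Finset.sum_range_id_mul_two k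
    omega
  have hlt : (D * D').natAbs < Y ^ (k * (k * (k - 1))) := by
    rw [Int.natAbs_mul]
    calc D.natAbs * D'.natAbs ≤ (X - 1) ^ (∑ i ∈ range k, i) * (X - 1) ^ (∑ i ∈ range k, i) :=
          Nat.mul_le_mul hD1 hD1'
      _ = (X - 1) ^ (k * (k - 1)) := by rw [← pow_add, hsum]
      _ < X ^ (k * (k - 1)) := by
        apply Nat.pow_lt_pow_left (by omega)
        have : 1 ≤ k - 1 := by omega
        have : 0 < k * (k - 1) := Nat.mul_pos (by omega) (by omega)
        omega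
      _ ≤ (Y ^ k) ^ (k * (k - 1)) := Nat.pow_le_pow_left hXY _
      _ = Y ^ (k * (k * (k - 1))) := by rw [← pow_mul]
  obtain ⟨p, hp, hpd⟩ := REC_notdvd Y _ P hc hP (D * D') (mul_ne_zero hD0 hD0') hlt
  refine ⟨p, hp, ?_, ?_⟩
  · have h1 := hD2 p (fun h => hpd (h.mul_right _))
    intro i hi i' hi' hii
    have hr : (i : Fin n) ∈ Set.range (I.orderEmbOfFin hI) := by
      rw [Finset.range_orderEmbOfFin]; exact hi
    have hr' : (i' : Fin n) ∈ Set.range (I.orderEmbOfFin hI) := by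
      rw [Finset.range_orderEmbOfFin]; exact hi'
    obtain ⟨a, rfl⟩ := hr
    obtain ⟨b, rfl⟩ := hr'
    exact h1 a b (fun h => hii (by rw [h]))
  · have h1 := hD2' p (fun h => hpd (h.mul_left _))
    intro i hi i' hi' hii
    have hr : (i : Fin n) ∈ Set.range (I'.orderEmbOfFin hI') := by
      rw [Finset.range_orderEmbOfFin]; exact hi
    have hr' : (i' : Fin n) ∈ Set.range (I'.orderEmbOfFin hI') := by
      rw [Finset.range_orderEmbOfFin]; exact hi'
    obtain ⟨a, rfl⟩ := hr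
    obtain ⟨b, rfl⟩ := hr'
    exact h1 a b (fun h => hii (by rw [h]))

/-- the solutions -/
private noncomputable def REC_S (n k X : ℕ) : Finset ((Fin n → ℤ) × (Fin n → ℤ)) :=
  ((Fintype.piFinset fun _ : Fin n => Ioc 0 (X : ℤ)) ×ˢ
      (Fintype.piFinset fun _ : Fin n => Ioc 0 (X : ℤ))).filter
        fun w : (Fin n → ℤ) × (Fin n → ℤ) =>
          ∀ j ∈ Icc (1 : ℕ) k, (∑ i, w.1 i ^ j : ℤ) = ∑ i, w.2 i ^ j

private theorem REC_good (s k X Y : ℕ) (hk : 2 ≤ k) (hX : 2 ≤ X) (hXY : X ≤ Y ^ k) (P : Finset ℕ)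
    (hc : #P = k * (k * (k - 1))) (hP : ∀ p ∈ P, p.Prime ∧ Y < p) :
    #((REC_S (s + k) k X).filter fun w => k ≤ #(univ.image w.1) ∧ k ≤ #(univ.image w.2)) ≤
      ((s + k).choose k) ^ 2 * ∑ p ∈ P, Q4 s k (DM k p X) (Ioc 0 (X : ℤ)) := by
  have hsub : ((REC_S (s + k) k X).filter fun w => k ≤ #(univ.image w.1) ∧ k ≤ #(univ.image w.2)) ⊆
      ((((univ : Finset (Fin (s + k))).powersetCard k) ×ˢ
        ((univ : Finset (Fin (s + k))).powersetCard k)) ×ˢ P).biUnion fun v =>
          (REC_S (s + k) k X).filter fun w =>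
            (∀ i ∈ v.1.1, ∀ i' ∈ v.1.1, i ≠ i' → ¬ (v.2 : ℤ) ∣ w.1 i - w.1 i') ∧
            (∀ i ∈ v.1.2, ∀ i' ∈ v.1.2, i ≠ i' → ¬ (v.2 : ℤ) ∣ w.2 i - w.2 i') := by
    intro w hw
    rw [mem_filter] at hw
    obtain ⟨hw1, hw2, hw3⟩ := hw
    obtain ⟨I, hI, hxI⟩ := REC_many _ k w.1 hw2
    obtain ⟨I', hI', hyI⟩ := REC_many _ k w.2 hw3
    have hw1' := hw1
    unfold REC_S at hw1'
    rw [mem_filter, mem_product, Fintype.mem_piFinset, Fintype.mem_piFinset] at hw1'
    obtain ⟨p, hp, h1, h2⟩ := REC_sep (s + k) k X Y hk hX hXY P hc hP w.1 w.2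
      (fun i => by have := mem_Ioc.mp (hw1'.1.1 i); omega)
      (fun i => by have := mem_Ioc.mp (hw1'.1.2 i); omega) I I' hI hI' hxI hyI
    rw [mem_biUnion]
    refine ⟨((I, I'), p), ?_, ?_⟩
    · rw [mem_product, mem_product, mem_powersetCard, mem_powersetCard]
      exact ⟨⟨⟨subset_univ _, hI⟩, subset_univ _, hI'⟩, hp⟩
    · exact mem_filter.mpr ⟨hw1, h1, h2⟩
  refine (card_le_card hsub).trans (card_biUnion_le.trans ?_)
  calc ∑ v ∈ (((univ : Finset (Fin (s + k))).powersetCard k) ×ˢ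
        ((univ : Finset (Fin (s + k))).powersetCard k)) ×ˢ P,
        #((REC_S (s + k) k X).filter fun w =>
            (∀ i ∈ v.1.1, ∀ i' ∈ v.1.1, i ≠ i' → ¬ (v.2 : ℤ) ∣ w.1 i - w.1 i') ∧
            (∀ i ∈ v.1.2, ∀ i' ∈ v.1.2, i ≠ i' → ¬ (v.2 : ℤ) ∣ w.2 i - w.2 i'))
      ≤ ∑ v ∈ (((univ : Finset (Fin (s + k))).powersetCard k) ×ˢ
        ((univ : Finset (Fin (s + k))).powersetCard k)) ×ˢ P,
          Q4 s k (DM k v.2 X) (Ioc 0 (X : ℤ)) := by
        refine Finset.sum_le_sum fun v hv => ?_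
        rw [mem_product, mem_product, mem_powersetCard, mem_powersetCard] at hv
        exact REC_inj s k X v.2 v.1.1 v.1.2 hv.1.1.2 hv.1.2.2
    _ = ((s + k).choose k) ^ 2 * ∑ p ∈ P, Q4 s k (DM k p X) (Ioc 0 (X : ℤ)) := by
        rw [Finset.sum_product]
        dsimp only
        rw [Finset.sum_const, card_product, card_powersetCard, card_univ,
          Fintype.card_fin, smul_eq_mul, sq]

private theorem REC_bad (n k X : ℕ) (hJB : JB_stmt) (hX : 1 ≤ X) :
    #((REC_S n k X).filter fun w => #(univ.image w.1) < k) ≤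
      X ^ (k - 1) * k ^ n * Nat.sqrt (JV n k X) ∧
    #((REC_S n k X).filter fun w => #(univ.image w.2) < k) ≤
      X ^ (k - 1) * k ^ n * Nat.sqrt (JV n k X) := by
  obtain ⟨-, -, -, hJ, -, -⟩ := hJB
  have hf := REC_few n k X hX
  constructor
  · refine le_trans ?_ (Nat.mul_le_mul_right _ hf)
    rw [mul_comm]
    refine Finset.card_le_mul_card_image_of_maps_to (f := fun w => w.1) ?_ _ ?_
    · intro w hw
      rw [mem_filter] at hw
      obtain ⟨hw1, hw2⟩ := hw
      unfold REC_S at hw1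
      rw [mem_filter, mem_product] at hw1
      exact mem_filter.mpr ⟨hw1.1.1, hw2⟩
    · intro x _
      rw [Nat.le_sqrt']
      refine le_trans (Nat.pow_le_pow_left ?_ 2)
        (hJ n k (Ioc 0 (X : ℤ)) (fun j => ∑ i, x i ^ j))
      refine Finset.card_le_card_of_injOn (fun w => w.2) ?_ ?_
      · intro w hw
        have hw' := mem_filter.mp (Finset.mem_coe.mp hw)
        have hw1 := (mem_filter.mp hw'.1).1
        unfold REC_S at hw1
        rw [mem_filter, mem_product] at hw1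
        refine Finset.mem_coe.mpr (mem_filter.mpr ⟨hw1.1.2, fun j hj => ?_⟩)
        rw [← hw1.2 j hj, hw'.2]
      · intro w hw w' hw' h
        have h1 := (mem_filter.mp (Finset.mem_coe.mp hw)).2
        have h2 := (mem_filter.mp (Finset.mem_coe.mp hw')).2
        exact Prod.ext (h1.trans h2.symm) h
  · refine le_trans ?_ (Nat.mul_le_mul_right _ hf)
    rw [mul_comm]
    refine Finset.card_le_mul_card_image_of_maps_to (f := fun w => w.2) ?_ _ ?_
    · intro w hw
      rw [mem_filter] at hw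
      obtain ⟨hw1, hw2⟩ := hw
      unfold REC_S at hw1
      rw [mem_filter, mem_product] at hw1
      exact mem_filter.mpr ⟨hw1.1.2, hw2⟩
    · intro x _
      rw [Nat.le_sqrt']
      refine le_trans (Nat.pow_le_pow_left ?_ 2)
        (hJ n k (Ioc 0 (X : ℤ)) (fun j => ∑ i, x i ^ j))
      refine Finset.card_le_card_of_injOn (fun w => w.1) ?_ ?_
      · intro w hw
        have hw' := mem_filter.mp (Finset.mem_coe.mp hw)
        have hw1 := (mem_filter.mp hw'.1).1
        unfold REC_S at hw1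
        rw [mem_filter, mem_product] at hw1
        refine Finset.mem_coe.mpr (mem_filter.mpr ⟨hw1.1.1, fun j hj => ?_⟩)
        rw [hw1.2 j hj, hw'.2]
      · intro w hw w' hw' h
        have h1 := (mem_filter.mp (Finset.mem_coe.mp hw)).2
        have h2 := (mem_filter.mp (Finset.mem_coe.mp hw')).2
        exact Prod.ext h (h1.trans h2.symm)

private theorem REC_split (n k X T : ℕ) (hJB : JB_stmt) (hX : 1 ≤ X)
    (hT : #((REC_S n k X).filter fun w => k ≤ #(univ.image w.1) ∧ k ≤ #(univ.image w.2)) ≤ T) :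
    JV n k X ≤ 2 * T + 16 * k ^ (2 * n) * X ^ (2 * k - 2) := by
  obtain ⟨hb1, hb2⟩ := REC_bad n k X hJB hX
  have hsub : REC_S n k X ⊆
      ((REC_S n k X).filter fun w => k ≤ #(univ.image w.1) ∧ k ≤ #(univ.image w.2)) ∪
      (((REC_S n k X).filter fun w => #(univ.image w.1) < k) ∪
        ((REC_S n k X).filter fun w => #(univ.image w.2) < k)) := by
    intro w hw
    rw [mem_union, mem_union, mem_filter, mem_filter, mem_filter]
    by_cases h1 : #(univ.image w.1) < k
    · exact Or.inr (Or.inl ⟨hw, h1⟩)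
    · by_cases h2 : #(univ.image w.2) < k
      · exact Or.inr (Or.inr ⟨hw, h2⟩)
      · exact Or.inl ⟨hw, not_lt.mp h1, not_lt.mp h2⟩
  have hcard : JV n k X = #(REC_S n k X) := rfl
  have h1 := (card_le_card hsub).trans ((card_union_le _ _).trans
    (Nat.add_le_add_left (card_union_le _ _) _))
  rw [← hcard] at h1
  set J := JV n k X with hJdef
  set b := X ^ (k - 1) * k ^ n with hb
  set R := Nat.sqrt J with hR
  have hR2 : R * R ≤ J := Nat.sqrt_le J
  have h2 : J ≤ T + 2 * (b * R) := by omega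
  have hb2' : 16 * b ^ 2 = 16 * k ^ (2 * n) * X ^ (2 * k - 2) := by
    rw [hb, mul_pow, ← pow_mul, ← pow_mul, show (k - 1) * 2 = 2 * k - 2 by omega, mul_comm n 2]
    ring
  rw [← hb2']
  by_contra hcon
  push Not at hcon
  have h3 : J < 4 * (b * R) := by
    have : 0 ≤ 16 * b ^ 2 := Nat.zero_le _
    omega
  have h4 : R * R < 4 * b * R := by
    calc R * R ≤ J := hR2
      _ < 4 * (b * R) := h3
      _ = 4 * b * R := by ring
  have h5 : R < 4 * b := lt_of_mul_lt_mul_right h4 (Nat.zero_le _)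
  have h6 : J < 16 * b ^ 2 := by
    calc J < 4 * (b * R) := h3
      _ ≤ 4 * (b * (4 * b)) := by
        apply Nat.mul_le_mul_left
        apply Nat.mul_le_mul_left
        omega
      _ = 16 * b ^ 2 := by ring
  omega

theorem REC (hSTE : STE_stmt) (hJB : JB_stmt) : REC_stmt := by
  intro s k X hs hk hX
  have hX2 : 2 ≤ X := by
    refine le_trans ?_ hX
    calc 2 = 2 ^ 1 := by norm_num
      _ ≤ 2 ^ (2 * k ^ 3) := by
        apply Nat.pow_le_pow_right (by norm_num)
        have : 0 < k ^ 3 := by positivity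
        omega
  have hex : ∃ Y : ℕ, X ≤ Y ^ k := ⟨X, Nat.le_self_pow (by omega) X⟩
  set Y := Nat.find hex with hYdef
  have hY1 : X ≤ Y ^ k := Nat.find_spec hex
  have hY2 : ∀ m < Y, ¬ X ≤ m ^ k := fun m hm => Nat.find_min hex hm
  have hY3 : 2 ^ (2 * k ^ 2) ≤ Y := by
    by_contra h
    push Not at h
    have h1 : Y ^ k < (2 ^ (2 * k ^ 2)) ^ k := Nat.pow_lt_pow_left h (by omega)
    rw [← pow_mul] at h1
    have h2 : 2 * k ^ 2 * k = 2 * k ^ 3 := by ring
    rw [h2] at h1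
    omega
  have hkY : k ≤ Y := by
    refine le_trans ?_ hY3
    have h1 : k < 2 ^ k := Nat.lt_two_pow_self
    have h2 : 2 ^ k ≤ 2 ^ (2 * k ^ 2) := by
      apply Nat.pow_le_pow_right (by norm_num)
      nlinarith
    omega
  have hY4 : (Y - 1) ^ k < X := by
    have := hY2 (Y - 1) (by omega)
    omega
  have hY5 : Y ^ k ≤ 2 ^ k * X := by
    calc Y ^ k ≤ (2 * (Y - 1)) ^ k := Nat.pow_le_pow_left (by omega) k
      _ = 2 ^ k * (Y - 1) ^ k := by rw [mul_pow]
      _ ≤ 2 ^ k * X := Nat.mul_le_mul_left _ hY4.le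
  set r := k * (k * (k - 1)) with hr
  obtain ⟨P, hPc, hP⟩ := REC_primes Y (by omega) r
  have hgood := REC_good s k X Y hk hX2 hY1 P hPc (fun p hp => ⟨(hP p hp).1, (hP p hp).2.1⟩)
  have hXp : ∀ p ∈ P, X ≤ p ^ k := fun p hp =>
    hY1.trans (Nat.pow_le_pow_left (hP p hp).2.1.le k)
  have hkp : ∀ p ∈ P, k < p := fun p hp => lt_of_le_of_lt hkY (hP p hp).2.1
  set g : ℕ → ℕ := fun p => p ^ (2 * s) * X ^ k * (k.factorial * p ^ (k * (k - 1) / 2)) *
    JV s k (X / p + 1) with hg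
  have hPne : P.Nonempty := by
    rw [← Finset.card_pos, hPc, hr]
    have : 0 < k - 1 := by omega
    positivity
  obtain ⟨p, hp, hmax⟩ := Finset.exists_max_image P g hPne
  refine ⟨p, (hP p hp).1, hkp p hp, hXp p hp, ?_, ?_⟩
  · calc p ^ k ≤ (2 ^ r * Y) ^ k := Nat.pow_le_pow_left (hP p hp).2.2 k
      _ = 2 ^ (r * k) * Y ^ k := by rw [mul_pow, ← pow_mul]
      _ ≤ 2 ^ (r * k) * (2 ^ k * X) := Nat.mul_le_mul_left _ hY5
      _ = 2 ^ (r * k + k) * X := by rw [pow_add]; ring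
      _ ≤ 2 ^ (k ^ 4) * X := by
        apply Nat.mul_le_mul_right
        apply Nat.pow_le_pow_right (by norm_num)
        rw [hr]
        obtain ⟨m, rfl⟩ : ∃ m, k = m + 2 := ⟨k - 2, by omega⟩
        simp only [show m + 2 - 1 = m + 1 by omega]
        nlinarith [Nat.zero_le m, Nat.zero_le (m ^ 2), Nat.zero_le (m ^ 3)]
  · have hsum : ∑ p' ∈ P, Q4 s k (DM k p' X) (Ioc 0 (X : ℤ)) ≤ r * g p := by
      calc ∑ p' ∈ P, Q4 s k (DM k p' X) (Ioc 0 (X : ℤ)) ≤ ∑ p' ∈ P, g p := by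
            refine Finset.sum_le_sum fun p' hp' => ?_
            exact (hSTE s k p' X hs (hP p' hp').1 (hkp p' hp') (hXp p' hp')).trans (hmax p' hp')
        _ = r * g p := by rw [Finset.sum_const, hPc, smul_eq_mul]
    have hrk : r ≤ k ^ 3 := by
      rw [hr]
      calc k * (k * (k - 1)) ≤ k * (k * k) := by
            apply Nat.mul_le_mul_left
            apply Nat.mul_le_mul_left
            omega
        _ = k ^ 3 := by ring
    have h1 : #((REC_S (s + k) k X).filter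
        fun w => k ≤ #(univ.image w.1) ∧ k ≤ #(univ.image w.2)) ≤
        ((s + k).choose k) ^ 2 * (k ^ 3 * g p) :=
      hgood.trans (Nat.mul_le_mul_left _ (hsum.trans (Nat.mul_le_mul_right _ hrk)))
    have h2 := REC_split (s + k) k X _ hJB (by omega) h1
    refine h2.trans (le_of_eq ?_)
    rw [hg]
    ring

end Pool.Agent.CH
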