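import Pool.Agent.helper17.CH.SpecQ

/-!
# Project CH (MP_5628fe_nt), row QHW
-/

set_option autoImplicit false

namespace Pool.Agent.CH

open Finset ArithmeticFunction MeasureTheory

private theorem QHW_cardPP (N : ℕ) (hl : 7 ≤ Real.log N) (hN : 1 ≤ N) :
    (#(PP N) : ℝ) ≤ 36 * Real.log N ^ 2 := by
  set L := Nat.log 2 (64 * N ^ 3) with hL
  have hsub : PP N ⊆ (range (L + 1)) ×ˢ (range (L + 1)) := by
    intro w hw
    unfold PP at hw
    rw [mem_filter] at hw
    have h1 : w.1 + w.2 ≤ L := by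
      rw [hL]
      exact Nat.le_log_of_pow_le (by norm_num) hw.2.2
    rw [mem_product, mem_range, mem_range]
    omega
  have h2 : #(PP N) ≤ (L + 1) * (L + 1) := by
    refine (card_le_card hsub).trans ?_
    rw [card_product, card_range]
  have hN0 : (0 : ℝ) < N := by exact_mod_cast hN
  have h3 : (L : ℝ) ≤ 6 + 5 * Real.log N := by
    have h4 : (2 : ℝ) ^ L ≤ 64 * (N : ℝ) ^ 3 := by
      have : 2 ^ L ≤ 64 * N ^ 3 := Nat.pow_log_le_self 2 (by positivity)
      exact_mod_cast this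
    have h5 : (L : ℝ) * Real.log 2 ≤ 6 * Real.log 2 + 3 * Real.log N := by
      have := Real.log_le_log (by positivity) h4
      rw [Real.log_pow, Real.log_mul (by norm_num) (by positivity), Real.log_pow,
        show (64 : ℝ) = 2 ^ 6 by norm_num, Real.log_pow] at this
      push_cast at this
      linarith
    have h6 : (0.69 : ℝ) < Real.log 2 := by
      have := Real.log_two_gt_d9
      linarith
    by_contra hcon
    push Not at hcon
    have h7 : (6 + 5 * Real.log N) * Real.log 2 < (L : ℝ) * Real.log 2 :=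
      mul_lt_mul_of_pos_right hcon (by linarith)
    nlinarith
  have h8 : ((L : ℝ) + 1) ≤ 6 * Real.log N := by linarith
  calc (#(PP N) : ℝ) ≤ ((L : ℝ) + 1) * ((L : ℝ) + 1) := by exact_mod_cast h2
    _ ≤ (6 * Real.log N) * (6 * Real.log N) := by
      apply mul_le_mul h8 h8 (by positivity) (by linarith)
    _ = 36 * Real.log N ^ 2 := by ring

private theorem QHW_dec (N : ℕ) (δ : ℝ) (hl : 100 ≤ Real.log N) (hN : 1 ≤ N) (hδ : 0 < δ)
    (hδ2 : δ ≤ 1 / Real.log N) :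
    2 * Real.exp (-(1 / (9 * δ ^ 2))) ≤ 1 / 2 * (1 / (N : ℝ) ^ 10) := by
  have hN0 : (0 : ℝ) < N := by exact_mod_cast hN
  have hl0 : 0 < Real.log N := by linarith
  have h1 : Real.log N ^ 2 / 9 ≤ 1 / (9 * δ ^ 2) := by
    rw [div_le_div_iff₀ (by norm_num) (by positivity)]
    have h2 : δ * Real.log N ≤ 1 := by
      rw [le_div_iff₀ hl0] at hδ2
      exact hδ2
    have h3 : (δ * Real.log N) ^ 2 ≤ 1 := by
      apply pow_le_one₀ (by positivity) h2
    nlinarith
  have h2 : Real.exp (-(1 / (9 * δ ^ 2))) ≤ Real.exp (-(10 * Real.log N + 2)) := by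
    apply Real.exp_le_exp.mpr
    nlinarith
  have h3 : Real.exp (-(10 * Real.log N + 2)) = Real.exp (-2) * (1 / (N : ℝ) ^ 10) := by
    have h4 : (N : ℝ) ^ 10 = Real.exp (10 * Real.log N) := by
      have := Real.exp_log hN0
      conv_lhs => rw [← this]
      rw [← Real.exp_nat_mul]
      norm_num
    rw [h4, one_div, ← Real.exp_neg, ← Real.exp_add]
    congr 1
    ring
  have h4 : Real.exp (-2) ≤ 1 / 4 := by
    rw [Real.exp_neg, inv_eq_one_div]
    apply one_div_le_one_div_of_le (by norm_num)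
    have h5 : Real.exp 2 = Real.exp 1 * Real.exp 1 := by rw [← Real.exp_add]; norm_num
    have h6 := Real.exp_one_gt_d9
    rw [h5]
    nlinarith
  rw [h3] at h2
  have h5 : 0 ≤ 1 / (N : ℝ) ^ 10 := by positivity
  nlinarith

theorem QHW (hQD : QD_stmt) (hQI : QI_stmt) (hHPB : HPB_stmt) (hCCB : CCB_stmt) : QHW_stmt := by
  intro ε A B hε hε2
  obtain ⟨N₁, hQD⟩ := hQD
  obtain ⟨B₁, N₂, hQI⟩ := hQI ε (2 * (A + 3) + 2) B hε hε2
  obtain ⟨B₀, hHPB⟩ := hHPB ε (A + 3) 1 B₁ hε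
  obtain ⟨-, -, hC3, hC4, -, -⟩ := hCCB
  refine ⟨max B₀ 1, fun B₂ hB₂ => ?_⟩
  obtain ⟨N₃, hHPB⟩ := hHPB B₂ ((le_max_left _ _).trans hB₂)
  have hB1 : 1 ≤ B₂ := (le_max_right _ _).trans hB₂
  have hev : ∀ᶠ N : ℕ in Filter.atTop, 100 ≤ Real.log N ∧ Real.log N ^ (A + 1) ≤ (N : ℝ) := by
    have h1 : ∀ᶠ x : ℝ in Filter.atTop, 100 ≤ Real.log x :=
      Real.tendsto_log_atTop.eventually_ge_atTop 100
    have h2 : ∀ᶠ x : ℝ in Filter.atTop, Real.log x ^ (A + 1) ≤ x := by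
      have h3 := (Real.isLittleO_pow_log_id_atTop (n := A + 1)).bound (c := 1) one_pos
      filter_upwards [h3, Filter.eventually_ge_atTop 0] with x hx hx0
      rw [one_mul, id, Real.norm_of_nonneg hx0] at hx
      exact (le_abs_self _).trans hx
    exact (tendsto_natCast_atTop_atTop (R := ℝ)).eventually (h1.and h2)
  obtain ⟨N₄, hN₄⟩ := Filter.eventually_atTop.mp hev
  refine ⟨max (max N₁ N₂) (max N₃ (max N₄ 1)), fun N hN c hc z y hPZ q hq hqB χ => ?_⟩
  have hN1 : N₁ ≤ N := ((le_max_left _ _).trans (le_max_left _ _)).trans hN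
  have hN2 : N₂ ≤ N := ((le_max_right _ _).trans (le_max_left _ _)).trans hN
  have hN3 : N₃ ≤ N := ((le_max_left _ _).trans (le_max_right _ _)).trans hN
  have hN4 : N₄ ≤ N := ((le_max_left _ _).trans ((le_max_right _ _).trans (le_max_right _ _))).trans hN
  have hN5 : 1 ≤ N := ((le_max_right _ _).trans ((le_max_right _ _).trans (le_max_right _ _))).trans hN
  obtain ⟨hl, hlA⟩ := hN₄ N hN4
  have hN0 : (1 : ℝ) ≤ N := by exact_mod_cast hN5
  have hNpos : (0 : ℝ) < N := by linarith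
  have hl0 : 0 < Real.log N := by linarith
  have hd1 : 0 < de ε N := by unfold de; exact Real.rpow_pos_of_pos hNpos _
  have hd2 : 0 < dB B₂ N := by unfold dB; positivity
  have hd3 : de ε N ≤ 1 / Real.log N := by
    unfold de
    rw [Real.rpow_neg hNpos.le, inv_eq_one_div]
    apply one_div_le_one_div_of_le hl0
    calc Real.log N ≤ (N : ℝ) := by
          have := Real.log_le_sub_one_of_pos hNpos
          linarith
      _ = (N : ℝ) ^ (1 : ℝ) := (Real.rpow_one _).symm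
      _ ≤ (N : ℝ) ^ (1 + ε) := Real.rpow_le_rpow_of_exponent_le hN0 (by linarith)
  have hd4 : dB B₂ N ≤ 1 / Real.log N := by
    unfold dB
    apply one_div_le_one_div_of_le hl0
    calc Real.log N = Real.log N ^ 1 := (pow_one _).symm
      _ ≤ Real.log N ^ B₂ := pow_le_pow_right₀ (by linarith) hB1
  set g : ℕ → ℂ := gW N c (de ε N) (dB B₂ N) with hg
  have hg0 : ∀ j, ‖g j‖ = |Ph N c (de ε N) (Real.log j) - Ph N c (dB B₂ N) (Real.log j)| := by
    intro j
    rw [hg]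
    unfold gW
    rw [Complex.norm_real, Real.norm_eq_abs]
  have hg1 : ∀ j, ‖g j‖ ≤ 2 := by
    intro j
    rw [hg0]
    have h1 := hC3 N c (de ε N) (Real.log j) hd1 hc
    have h2 := hC3 N c (dB B₂ N) (Real.log j) hd2 hc
    have h3 := abs_sub (Ph N c (de ε N) (Real.log j)) (Ph N c (dB B₂ N) (Real.log j))
    linarith
  have hg2 : ∀ j : ℕ, 1 ≤ j → (2 * j ≤ N ^ 3 ∨ 16 * N ^ 3 ≤ j) → ‖g j‖ ≤ 1 / (N : ℝ) ^ 10 := by
    intro j hj hj2
    have hj0 : (0 : ℝ) < j := by exact_mod_cast hj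
    have hv : Real.log j ≤ 3 * Real.log N - Real.log 2 ∨
        3 * Real.log (2 * N) + Real.log 2 ≤ Real.log j := by
      rcases hj2 with h | h
      · left
        have h1 : 2 * (j : ℝ) ≤ (N : ℝ) ^ 3 := by exact_mod_cast h
        have h2 := Real.log_le_log (by positivity) h1
        rw [Real.log_mul (by norm_num) (by positivity), Real.log_pow] at h2
        push_cast at h2
        linarith
      · right
        have h1 : 16 * (N : ℝ) ^ 3 ≤ j := by exact_mod_cast h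
        have h2 := Real.log_le_log (by positivity) h1
        rw [Real.log_mul (by norm_num) (by positivity), Real.log_pow,
          show (16 : ℝ) = 2 ^ 4 by norm_num, Real.log_pow] at h2
        rw [Real.log_mul (by norm_num) (by positivity)]
        push_cast at h2
        linarith
    rw [hg0]
    have h1 := hC4 N c (de ε N) (Real.log j) hN5 hd1 hc hv
    have h2 := hC4 N c (dB B₂ N) (Real.log j) hN5 hd2 hc hv
    have h3 := abs_sub (Ph N c (de ε N) (Real.log j)) (Ph N c (dB B₂ N) (Real.log j))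
    have h4 := QHW_dec N (de ε N) hl hN5 hd1 hd3
    have h5 := QHW_dec N (dB B₂ N) hl hN5 hd2 hd4
    linarith
  have hmain := hQD N hN1 z y hPZ q χ g hg1 hg2
  have hP0 : ∀ m, ‖aP χ z y m‖ ≤ 1 := by
    intro m
    unfold aP
    split_ifs
    · exact DirichletCharacter.norm_le_one χ _
    · simp
  have hK0 : ∀ m, ‖aK χ y m‖ ≤ 1 := by
    intro m
    unfold aK
    split_ifs
    · exact DirichletCharacter.norm_le_one χ _
    · simp
  have hblock : ∀ w ∈ PP N, ‖BLb (2 ^ w.1) (2 ^ w.2) (aP χ z y) (aK χ y) g‖ ≤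
      (N : ℝ) ^ 3 / Real.log N ^ (A + 3) := by
    intro w hw
    unfold PP at hw
    rw [mem_filter, pow_add] at hw
    obtain ⟨-, hw1, hw2⟩ := hw
    have hM : 1 ≤ 2 ^ w.1 := Nat.one_le_two_pow
    have hK : 1 ≤ 2 ^ w.2 := Nat.one_le_two_pow
    refine hHPB N hN3 c hc (2 ^ w.1) (2 ^ w.2) (aP χ z y) (aK χ y) hM hK ?_ ?_
    · have h1 : ∑ m ∈ Ico (2 ^ w.1) (2 * 2 ^ w.1), ‖aP χ z y m‖ ≤ ((2 ^ w.1 : ℕ) : ℝ) := by
        calc ∑ m ∈ Ico (2 ^ w.1) (2 * 2 ^ w.1), ‖aP χ z y m‖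
            ≤ ∑ m ∈ Ico (2 ^ w.1) (2 * 2 ^ w.1), (1 : ℝ) := Finset.sum_le_sum fun m _ => hP0 m
          _ = ((2 ^ w.1 : ℕ) : ℝ) := by
            rw [Finset.sum_const, Nat.card_Ico, nsmul_eq_mul, mul_one]
            congr 1
            omega
      have h2 : ∑ m ∈ Ico (2 ^ w.2) (2 * 2 ^ w.2), ‖aK χ y m‖ ≤ ((2 ^ w.2 : ℕ) : ℝ) := by
        calc ∑ m ∈ Ico (2 ^ w.2) (2 * 2 ^ w.2), ‖aK χ y m‖
            ≤ ∑ m ∈ Ico (2 ^ w.2) (2 * 2 ^ w.2), (1 : ℝ) := Finset.sum_le_sum fun m _ => hK0 m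
          _ = ((2 ^ w.2 : ℕ) : ℝ) := by
            rw [Finset.sum_const, Nat.card_Ico, nsmul_eq_mul, mul_one]
            congr 1
            omega
      calc (∑ m ∈ Ico (2 ^ w.1) (2 * 2 ^ w.1), ‖aP χ z y m‖) *
            ∑ m ∈ Ico (2 ^ w.2) (2 * 2 ^ w.2), ‖aK χ y m‖
          ≤ ((2 ^ w.1 : ℕ) : ℝ) * ((2 ^ w.2 : ℕ) : ℝ) :=
            mul_le_mul h1 h2 (Finset.sum_nonneg fun _ _ => norm_nonneg _) (Nat.cast_nonneg _)
        _ ≤ 64 * (N : ℝ) ^ 3 := by exact_mod_cast hw2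
        _ ≤ (N : ℝ) ^ 3 * Real.log N ^ 1 := by
          rw [pow_one, mul_comm]
          exact mul_le_mul_of_nonneg_left (by linarith) (by positivity)
    · exact hQI N hN2 q hq hqB χ z y hPZ (2 ^ w.1) (2 ^ w.2) hM hK hw1 hw2
  have hsum : ∑ w ∈ PP N, ‖BLb (2 ^ w.1) (2 ^ w.2) (aP χ z y) (aK χ y) g‖ ≤
      36 * Real.log N ^ 2 * ((N : ℝ) ^ 3 / Real.log N ^ (A + 3)) := by
    refine (Finset.sum_le_card_nsmul _ _ _ hblock).trans ?_
    rw [nsmul_eq_mul]
    exact mul_le_mul_of_nonneg_right (QHW_cardPP N (by linarith) hN5) (by positivity)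
  refine hmain.trans ?_
  have hfin : 1 + 36 * Real.log N ^ 2 * ((N : ℝ) ^ 3 / Real.log N ^ (A + 3)) ≤
      (N : ℝ) ^ 3 / Real.log N ^ A := by
    have h1 : 36 * Real.log N ^ 2 * ((N : ℝ) ^ 3 / Real.log N ^ (A + 3)) =
        36 * (N : ℝ) ^ 3 / Real.log N ^ (A + 1) := by
      rw [show A + 3 = (A + 1) + 2 by ring, pow_add (Real.log N) (A + 1) 2]
      field_simp
    have h2 : (N : ℝ) ^ 3 / Real.log N ^ A = (N : ℝ) ^ 3 * Real.log N / Real.log N ^ (A + 1) := by
      rw [pow_succ (Real.log N) A, div_eq_div_iff (by positivity) (by positivity)]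
      ring
    rw [h1, h2, le_div_iff₀ (by positivity)]
    have h3 : (1 + 36 * (N : ℝ) ^ 3 / Real.log N ^ (A + 1)) * Real.log N ^ (A + 1) =
        Real.log N ^ (A + 1) + 36 * (N : ℝ) ^ 3 := by
      field_simp
    rw [h3]
    have h4 : (N : ℝ) ≤ (N : ℝ) ^ 3 := le_self_pow₀ hN0 (by norm_num)
    have h5 : (0 : ℝ) < (N : ℝ) ^ 3 := by positivity
    nlinarith
  linarith

end Pool.Agent.CH
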